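import Pool.Agent.AT8.StmtsF

/-! Squad AT8, row CMB: integral vectors with Gram matrix `1 + n J`.

For a nonzero integral vector `x` with `m` entries, `(m + 1) |x|² - (∑ x)² ≥ m` (Cauchy-Schwarz on the
support); add this over the columns. -/

open scoped BigOperators

namespace Pool.Agent.PP.T8.H6

theorem key {ι : Type} [Fintype ι] (x : ι → ℤ) (hx : ∃ i, x i ≠ 0) :
    (Fintype.card ι : ℤ) ≤ (Fintype.card ι + 1) * ∑ i, x i * x i - (∑ i, x i) ^ 2 := by
  classical
  set A : Finset ι := Finset.univ.filter (fun i => x i ≠ 0) with hA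
  have h1 : ∑ i, x i = ∑ i ∈ A, x i := (Finset.sum_filter_ne_zero _).symm
  have h2 : ∑ i, x i * x i = ∑ i ∈ A, x i ^ 2 := by
    rw [hA, Finset.sum_filter]
    refine Finset.sum_congr rfl fun i _ => ?_
    split_ifs with h
    · rw [sq]
    · have h0 : x i = 0 := not_not.1 h
      rw [h0, mul_zero]
  have h3 : (∑ i ∈ A, x i) ^ 2 ≤ A.card * ∑ i ∈ A, x i ^ 2 := sq_sum_le_card_mul_sum_sq
  have h4 : (A.card : ℤ) ≤ ∑ i ∈ A, x i ^ 2 := by
    rw [Finset.card_eq_sum_ones]
    push_cast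
    refine Finset.sum_le_sum fun i hi => ?_
    have h0 : x i ≠ 0 := (Finset.mem_filter.1 hi).2
    have : 0 < x i ^ 2 := by positivity
    linarith
  have h5 : 1 ≤ A.card := by
    obtain ⟨i, hi⟩ := hx
    exact Finset.card_pos.2 ⟨i, by simp [hA, hi]⟩
  have h6 : A.card ≤ Fintype.card ι := Finset.card_le_univ A
  have h5' : (1 : ℤ) ≤ A.card := by exact_mod_cast h5
  have h6' : (A.card : ℤ) ≤ Fintype.card ι := by exact_mod_cast h6
  rw [h1, h2]
  nlinarith [mul_nonneg (sub_nonneg.2 h5') (sub_nonneg.2 h6'),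
    mul_nonneg (sub_nonneg.2 h4) (by linarith : (0 : ℤ) ≤ Fintype.card ι + 1 - A.card)]

theorem cmb : CmbStmt := by
  intro ι κ _ _ c n h1 h2 h3
  classical
  rcases isEmpty_or_nonempty ι with hι | hι
  · have : IsEmpty κ := ⟨fun k => by obtain ⟨i, _⟩ := h3 k; exact hι.elim i⟩
    simp
  have hm : (0 : ℤ) < Fintype.card ι := by exact_mod_cast Fintype.card_pos
  have h4 : ∑ k : κ, (Fintype.card ι : ℤ) ≤
      ∑ k, ((Fintype.card ι + 1) * ∑ i, c i k * c i k - (∑ i, c i k) ^ 2) :=
    Finset.sum_le_sum fun k _ => key (fun i => c i k) (h3 k)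
  have h5 : ∑ k, ∑ i, c i k * c i k = (Fintype.card ι : ℤ) * (1 + n) := by
    rw [Finset.sum_comm, Finset.sum_congr rfl (fun i _ => h1 i)]
    simp
  have h6 : ∑ k, (∑ i, c i k) ^ 2 =
      (Fintype.card ι : ℤ) + n * (Fintype.card ι : ℤ) ^ 2 := by
    have h7 : ∀ k, (∑ i, c i k) ^ 2 = ∑ i, ∑ j, c i k * c j k := by
      intro k
      rw [sq, Finset.sum_mul_sum]
    rw [Finset.sum_congr rfl (fun k _ => h7 k), Finset.sum_comm]
    have h8 : ∀ i, ∑ k, ∑ j, c i k * c j k = 1 + n * (Fintype.card ι : ℤ) := by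
      intro i
      rw [Finset.sum_comm]
      have h9 : ∀ j, ∑ k, c i k * c j k = (if i = j then 1 else 0) + n := by
        intro j
        split_ifs with h
        · rw [← h]
          exact h1 i
        · rw [zero_add]
          exact h2 i j h
      rw [Finset.sum_congr rfl (fun j _ => h9 j), Finset.sum_add_distrib]
      simp
      ring
    rw [Finset.sum_congr rfl (fun i _ => h8 i)]
    simp
    ring
  rw [Finset.sum_sub_distrib, ← Finset.mul_sum, h5, h6, Finset.sum_const, Finset.card_univ,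
    nsmul_eq_mul] at h4
  have h10 : (Fintype.card κ : ℤ) * Fintype.card ι ≤
      ((Fintype.card ι : ℤ) + n) * Fintype.card ι := by
    refine h4.trans (le_of_eq ?_)
    ring
  have h11 := le_of_mul_le_mul_right h10 hm
  exact_mod_cast h11

end Pool.Agent.PP.T8.H6
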