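import Pool.Agent.Helper6_AT8.CMB
import Pool.Agent.Helper49_AT3.BRG

/-! Squad AT8, row LFR: the bound `l(e) ≤ |E|` for free inertial quotients. -/

open scoped BigOperators

noncomputable section

namespace Pool.Agent.PP.T8.H6

open Pool.Agent.Helper51_AWC Pool.Agent.Helper79_WRA Pool.Agent.PP Pool.Agent.PP.KF
open Pool.Agent.PP.K9 Pool.Agent.PP.K9.H97 Pool.Agent.PP.H75 Pool.Agent.PP.T3 Pool.Agent.PP.T2

attribute [local instance] Ideal.Quotient.field

theorem lfr (pr2 : T2.Pr2Stmt) (dat : DatStmt) (fni : FniStmt) (fnz : FnzStmt) (fgr : FgrStmt)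
    (fkl : FklStmt) (for_ : ForStmt) : LfrStmt := by
  intro ℓ hℓ M _ hM h2 G _ _ e V γ hL hV hF
  classical
  obtain ⟨N, hN⟩ := pr2 ℓ h2 G
  obtain ⟨b, d, c, ε, hD⟩ := dat ℓ M hM G e V γ hL
  have hGF : GoodF ℓ (FF M) := H50.fld ℓ Fact.out M hM
  obtain ⟨m, u, lam, hu, huo, hl, hlo, hall⟩ := for_ ℓ (FF M) hGF G e V γ hL hF
  obtain ⟨z1, z2, z3⟩ := fnz ℓ M hM h2 G e V γ b d c ε hD hF
  have hfin : (IrrE M e).Finite := T3.H49.irrE_fin M e
  have : Finite (IrrE M e) := hfin.to_subtype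
  have : Fintype (IrrE M e) := Fintype.ofFinite _
  have hint : ∀ (i : Fin m) (χ : IrrE M e), ∃ n : ℤ, cl M V b d ε (lam i) χ = n := fun i χ =>
    fni ℓ M hM h2 G N hN e V γ b d c ε hD hF χ χ.2.1 (lam i)
  choose C hC using hint
  have hsum : ∀ i j, ∑ᶠ χ ∈ Irr G, cl M V b d ε (lam i) χ *
      starRingEnd ℂ (cl M V b d ε (lam j) χ) = ((∑ χ : IrrE M e, C i χ * C j χ : ℤ) : ℂ) := by
    intro i j
    have h3 : ∑ᶠ χ ∈ Irr G, cl M V b d ε (lam i) χ *
        starRingEnd ℂ (cl M V b d ε (lam j) χ) = ∑ᶠ χ ∈ IrrE M e, cl M V b d ε (lam i) χ *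
        starRingEnd ℂ (cl M V b d ε (lam j) χ) := by
      refine finsum_congr fun χ => ?_
      rw [finsum_eq_if, finsum_eq_if]
      by_cases hχ : χ ∈ Irr G
      · by_cases hχe : χ ∈ IrrE M e
        · rw [if_pos hχ, if_pos hχe]
        · rw [if_pos hχ, if_neg hχe, z3 (lam i) χ hχ hχe, zero_mul]
      · rw [if_neg hχ, if_neg (fun h => hχ h.1)]
    rw [h3, T3.H49.finsum_mem_fintype]
    push_cast
    refine Finset.sum_congr rfl fun χ _ => ?_
    rw [hC, hC]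
    simp
  have h4 := cmb (Fin m) (IrrE M e) C (ix V γ) ?_ ?_ ?_
  · have h5 := fkl ℓ M hM G e V γ b d c ε hD (Fin m) u ?_ huo
    · rw [Fintype.card_fin] at h4 h5
      have h6 : (IrrE M e).ncard = Fintype.card (IrrE M e) := by
        rw [← Nat.card_coe_set_eq, Nat.card_eq_fintype_card]
      rw [h6] at h5
      omega
    · intro i
      refine ⟨(hu i).1, (hu i).2, ?_⟩
      intro t ht
      obtain ⟨ht1, ht2⟩ := Subgroup.mem_inf.1 ht
      exact hF t ht1 (u i) (hu i).1 (hu i).2 (Subgroup.mem_centralizer_singleton_iff.1 ht2)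
  · intro i
    have h6 := (fgr ℓ M hM h2 G e V γ b d c ε hD hF (lam i) (lam i) (hl i) (hl i)).1 rfl
    rw [hsum i i] at h6
    exact_mod_cast h6
  · intro i j hij
    have h6 := (fgr ℓ M hM h2 G e V γ b d c ε hD hF (lam i) (lam j) (hl i) (hl j)).2
      (hlo j i (Ne.symm hij))
    rw [hsum i j] at h6
    exact_mod_cast h6
  · intro χ
    obtain ⟨mu, hmu, hne⟩ := z2 hV χ χ.2
    obtain ⟨i, t, ht, htc⟩ := hall mu hmu
    refine ⟨i, ?_⟩
    intro h0
    apply hne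
    rw [z1 t ht (lam i) mu htc χ χ.2.1, hC, h0, Int.cast_zero]

end Pool.Agent.PP.T8.H6
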